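import Pool.Agent.H752.AG.Final

/-!
# How many oracles make bounded formulas as strong as Grzegorczyk's class `E²`?

For every gauge `f`, the set of the `A ⊆ ℕ` for which the predicates definable by bounded formulas
relative to `A` are exactly the predicates in `E²_*` relative to `A` is a null set for `f` if and
only if for every `ε > 0` there are infinitely many `N` with `f N ≤ N ^ ε`. The same holds for
every set of oracles that contains the `A` for which each predicate in `E²_*(A)` has the form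
`A(t)` with a term `t`, and that has only elements `A` for which the unary predicates in `E²_*(A)`
are definable by bounded formulas relative to `A`.
-/

namespace Pool.Agent.Results.MP_a56640_lc.GaugeThreshold

open Pool.Agent.H752.AG

theorem result (f : ℕ → ℝ) :
    (∀ O : Set (ℕ → Bool),
      (∀ A : ℕ → Bool, (∀ (k : ℕ) (R : (Fin k → ℕ) → Prop), IsE2s A R →
        ∃ t : Tm, ∀ a : Fin k → ℕ, R a ↔ A (t.val (asg a)) = true) → A ∈ O) →
      (∀ A ∈ O, ∀ R : (Fin 1 → ℕ) → Prop, IsE2s A R → IsD0 A R) →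
      (NullN f O ↔ ∀ ε : ℝ, 0 < ε → ∃ᶠ N : ℕ in Filter.atTop, f N ≤ (N : ℝ) ^ ε)) ∧
    (NullN f {A : ℕ → Bool | ∀ (k : ℕ) (R : (Fin k → ℕ) → Prop), IsD0 A R ↔ IsE2s A R} ↔
      ∀ ε : ℝ, 0 < ε → ∃ᶠ N : ℕ in Filter.atTop, f N ≤ (N : ℝ) ^ ε) :=
  ⟨fun O h1 h2 => keyE2 f O h1 h2, null_E2 f⟩

end Pool.Agent.Results.MP_a56640_lc.GaugeThreshold
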